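import Pool.Agent.H30.UcU
import Pool.Agent.H30.UcI5

/-!
The up-color domination weight: polynomial on trees, NP-complete on bipartite graphs and on
interval graphs.
-/

namespace Pool.Agent.Results.MP_07a0c6_lc.All

open Pool.Agent.H38.NP Pool.Agent.H30.Uc

theorem result :
    (∃ g : ℕ × List (ℕ × ℕ) → ℕ, PolyTimeOn (fun a => (graphOf a.1 a.2).IsTree) g ∧
      ∀ a, (graphOf a.1 a.2).IsTree → IsLeast {k | UCW (graphOf a.1 a.2) k} (g a)) ∧
    NPComplete (lang BipUCW) ∧ NPComplete (lang IntUCW) :=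
  ⟨⟨alg, pt_alg.polyTimeOn _, fun _ h => alg_spec h⟩, bip_npc, It.int_npc⟩

end Pool.Agent.Results.MP_07a0c6_lc.All
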